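import Mathlib
set_option autoImplicit false
namespace Pool.Agent.H.MP_1441be_gt
open Set Filter Topology

abbrev T := List ℕ × List Bool → Bool

def Sig : ℕ → Set T → Prop
  | 0, U => IsOpen U
  | k + 1, U => ∃ V : ℕ → Set T, (∀ j, Sig k (V j)) ∧ U = ⋃ j, (V j)ᶜ

lemma Sig.compl {k : ℕ} {V : Set T} (h : Sig k V) : Sig (k + 1) Vᶜ :=
  ⟨fun _ => V, fun _ => h, (iUnion_const _).symm⟩

lemma sig_eu (k : ℕ) : Sig k ∅ ∧ Sig k univ := by
  induction k with
  | zero => exact ⟨isOpen_empty, isOpen_univ⟩
  | succ k ih => exact ⟨by simpa using ih.2.compl, by simpa using ih.1.compl⟩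

lemma sig_iUnion {ι : Type} [Countable ι] {k : ℕ} {U : ι → Set T} (h : ∀ i, Sig k (U i)) :
    Sig k (⋃ i, U i) := by
  cases k with
  | zero => exact isOpen_iUnion h
  | succ k =>
    rcases isEmpty_or_nonempty ι with hι | hι
    · simpa using (sig_eu (k + 1)).1
    · obtain ⟨e, he⟩ := exists_surjective_nat (ι × ℕ)
      choose V hV hU using h
      refine ⟨fun n => V (e n).1 (e n).2, fun n => hV _ _, ?_⟩
      ext t
      simp only [mem_iUnion, hU]
      constructor
      · rintro ⟨i, j, ht⟩
        obtain ⟨n, hn⟩ := he (i, j)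
        exact ⟨n, by rw [hn]; exact ht⟩
      · rintro ⟨n, hn⟩
        exact ⟨_, _, hn⟩

lemma step1 {k : ℕ} {h : ℕ → T → ℝ} {g : T → ℝ} (hh : ∀ j a, Sig k {t | h j t < a})
    (hg : ∀ t, Tendsto (fun j => h j t) atTop (𝓝 (g t))) (a : ℝ) : Sig (k + 1) {t | a < g t} := by
  have : {t | a < g t} = ⋃ p : {q : ℚ // a < q} × ℕ, (⋃ j : ℕ, {t | h (j + p.2) t < p.1.1})ᶜ := by
    ext t
    simp only [mem_iUnion, mem_compl_iff, not_exists, mem_ofPred_eq, not_lt]
    constructor
    · intro ht
      obtain ⟨q, h1, h2⟩ := exists_rat_btwn ht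
      obtain ⟨J, hJ⟩ := eventually_atTop.1 ((hg t).eventually (lt_mem_nhds h2))
      exact ⟨(⟨q, h1⟩, J), fun j => (hJ _ (Nat.le_add_left _ _)).le⟩
    · rintro ⟨⟨⟨q, hq⟩, J⟩, hJ⟩
      refine hq.trans_le (ge_of_tendsto' ((tendsto_add_atTop_iff_nat J).2 (hg t)) hJ)
  rw [this]
  exact sig_iUnion fun p => (sig_iUnion fun j => hh _ _).compl

def BC (k : ℕ) (h : T → ℝ) : Prop := ∀ a, Sig k {t | a < h t} ∧ Sig k {t | h t < a}

lemma BC.of_cont {h : T → ℝ} (hc : Continuous h) : BC 0 h :=
  fun _ => ⟨isOpen_lt continuous_const hc, isOpen_lt hc continuous_const⟩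

lemma BC.lim {k : ℕ} {h : ℕ → T → ℝ} {g : T → ℝ} (hh : ∀ j, BC k (h j))
    (hg : ∀ t, Tendsto (fun j => h j t) atTop (𝓝 (g t))) : BC (k + 1) g := by
  intro a
  refine ⟨step1 (fun j a => (hh j a).2) hg a, ?_⟩
  have := step1 (k := k) (h := fun j t => -h j t) (g := fun t => -g t)
    (fun j a => by simpa [neg_lt] using (hh j (-a)).1) (fun t => (hg t).neg) (-a)
  simpa using this

def Tr : ℕ → (List ℕ → Bool) → Prop
  | 0, m => m [] = true
  | k + 1, m => ∀ j, ¬ Tr k (fun l => m (j :: l))

lemma tr_congr (k : ℕ) : ∀ m m' : List ℕ → Bool, (∀ l, l.length = k → m l = m' l) →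
    (Tr k m ↔ Tr k m') := by
  induction k with
  | zero => intro m m' h; simp [Tr, h [] rfl]
  | succ k ih =>
    intro m m' h
    exact forall_congr' fun j => not_congr (ih _ _ fun l hl => h _ (by simp [hl]))

noncomputable def en : ℕ → List ℕ × List Bool := (exists_surjective_nat _).choose

lemma en_surj : Function.Surjective en := (exists_surjective_nat _).choose_spec

noncomputable def pre (t : T) (N : ℕ) : List Bool := (List.range N).map fun i => t (en i)

noncomputable def R (c t : T) (l : List ℕ) : Bool := c (l, pre t (l.getLastD 0))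

lemma pre_cont (N : ℕ) : IsLocallyConstant fun t => pre t N := by
  induction N with
  | zero => exact IsLocallyConstant.const _
  | succ N ih =>
    have h2 : IsLocallyConstant fun t : T => t (en N) :=
      (IsLocallyConstant.iff_continuous _).2 (continuous_apply _)
    have := ih.comp₂ h2 fun a b => a ++ [b]
    convert this using 2 with t
    simp [pre, List.range_succ]

lemma R_cont (l : List ℕ) : Continuous fun t => R t t l := by
  rw [continuous_iff_continuousAt]
  intro t0
  have h1 := (pre_cont (l.getLastD 0)).eventually_eq t0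
  have h2 : ContinuousAt (fun t : T => t (l, pre t0 (l.getLastD 0))) t0 :=
    (continuous_apply _).continuousAt
  exact h2.congr (h1.mono fun t ht => by simp only [R, ht])

lemma universal (k : ℕ) : ∀ U : Set T, Sig k U → ∃ c : T, ∀ t, t ∈ U ↔ ¬ Tr (k + 1) (R c t) := by
  classical
  induction k with
  | zero =>
    intro U hU
    refine ⟨fun p => decide (∀ t', pre t' (p.1.getLastD 0) = p.2 → t' ∈ U), fun t => ?_⟩
    rw [Tr, not_forall]
    simp only [Tr, R, not_not, decide_eq_true_eq, List.getLastD_cons, List.getLastD_nil]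
    constructor
    · intro ht
      obtain ⟨I, u, h1, h2⟩ := isOpen_pi_iff.1 hU t ht
      choose s hs using en_surj
      refine ⟨I.sup s + 1, fun t' ht' => h2 fun a ha => ?_⟩
      have h3 : s a ∈ List.range (I.sup s + 1) :=
        List.mem_range.2 (Nat.lt_succ_of_le (Finset.le_sup (f := s) ha))
      have := List.map_inj_left.1 ht' _ h3
      rw [hs] at this
      rw [this]; exact (h1 a ha).2
    · rintro ⟨j, hj⟩
      exact hj t rfl
  | succ k ih =>
    rintro U ⟨V, hV, rfl⟩
    choose c hc using fun j => ih _ (hV j)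
    refine ⟨fun p => c (p.1.headD 0) (p.1.tail, p.2), fun t => ?_⟩
    rw [Tr]
    simp only [mem_iUnion, mem_compl_iff, hc, not_forall]
    refine exists_congr fun j => not_congr (not_congr (tr_congr _ _ _ fun l hl => ?_))
    cases l with
    | nil => simp at hl
    | cons a l => simp [R]

lemma diag (k : ℕ) : ¬ Sig k {t | Tr (k + 1) (R t t)} := by
  intro h
  obtain ⟨c, hc⟩ := universal k _ h
  exact iff_not_self (hc c)

noncomputable def E : ℕ → (ℕ → ℝ) → (List ℕ → Bool) → ℝ
  | 0, _, m => if m [] = true then 1 else 0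
  | k + 1, v, m =>
    ⨅ j : ℕ, max (min 1 (j * v 0)) (1 - E k (fun i => v (i + 1)) (fun l => m (j :: l)))

lemma E_bd (k : ℕ) : ∀ v m, 0 ≤ E k v m ∧ E k v m ≤ 1 := by
  induction k with
  | zero => intro v m; simp only [E]; split_ifs <;> simp
  | succ k ih =>
    intro v m
    have h0 : ∀ j : ℕ, 0 ≤ max (min 1 (j * v 0))
        (1 - E k (fun i => v (i + 1)) (fun l => m (j :: l))) :=
      fun j => le_max_of_le_right (sub_nonneg.2 (ih _ _).2)
    refine ⟨le_ciInf h0, (ciInf_le ⟨0, by rintro _ ⟨j, rfl⟩; exact h0 j⟩ 0).trans ?_⟩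
    exact max_le (min_le_left _ _) (by linarith [(ih (fun i => v (i + 1)) fun l => m (0 :: l)).1])

lemma E_bdd (k : ℕ) (v : ℕ → ℝ) (m : List ℕ → Bool) : BddBelow (range fun j : ℕ =>
    max (min 1 (j * v 0)) (1 - E k (fun i => v (i + 1)) (fun l => m (j :: l)))) :=
  ⟨0, by rintro _ ⟨j, rfl⟩; exact le_max_of_le_right (sub_nonneg.2 (E_bd _ _ _).2)⟩

open Classical in
lemma E_zero (k : ℕ) : ∀ v m, (∀ i, v i = 0) → E k v m = if Tr k m then 1 else 0 := by
  induction k with
  | zero => intro v m _; simp only [E, Tr]; congr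
  | succ k ih =>
    intro v m hv
    split_ifs with h
    · refine le_antisymm (E_bd _ _ _).2 (le_ciInf fun j => le_max_of_le_right ?_)
      rw [ih _ _ fun i => hv _, if_neg (h j)]; simp
    · refine le_antisymm ?_ (E_bd _ _ _).1
      obtain ⟨j, hj⟩ := not_forall.1 h
      refine (ciInf_le (E_bdd k v m) j).trans ?_
      rw [ih _ _ fun i => hv _, if_pos (not_not.1 hj), hv]; simp

lemma E_cont {X : Type} [TopologicalSpace X] (k : ℕ) : ∀ (r : ℕ) (v : X → ℕ → ℝ)
    (m : X → List ℕ → Bool), (∀ i, Continuous fun x => v x i) → (∀ l, Continuous fun x => m x l) →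
    (∀ x i, i < r → 0 < v x i) →
    (r < k → (∀ x y, m x = m y) ∧ (∀ x, 0 ≤ v x r) ∧ ∀ x i, r < i → v x i = 0) →
    Continuous fun x => E k (v x) (m x) := by
  classical
  induction k with
  | zero =>
    intro r v m _ hm _ _
    exact (continuous_of_discreteTopology (f := fun b : Bool => if b = true then (1 : ℝ) else 0)).comp
      (hm [])
  | succ k ih =>
    intro r v m hv hm hp hr
    cases r with
    | zero =>
      obtain ⟨h1, h2, h3⟩ := hr (Nat.succ_pos _)
      rcases isEmpty_or_nonempty X with hX | ⟨⟨x0⟩⟩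
      · exact continuous_of_discreteTopology
      have hz : ∀ x (j : ℕ), E k (fun i => v x (i + 1)) (fun l => m x (j :: l)) =
          if Tr k (fun l => m x0 (j :: l)) then 1 else 0 := by
        intro x j
        rw [E_zero _ _ _ fun i => h3 x _ (Nat.succ_pos _), h1 x x0]
      by_cases hex : ∃ j, Tr k (fun l => m x0 (j :: l))
      · have : (fun x => E (k + 1) (v x) (m x)) = fun x => min 1 (Nat.find hex * v x 0) := by
          ext x
          refine le_antisymm ((ciInf_le (E_bdd k _ _) (Nat.find hex)).trans ?_)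
            (le_ciInf fun j => ?_)
          · rw [hz, if_pos (Nat.find_spec hex), sub_self]
            exact max_le le_rfl (le_min zero_le_one (mul_nonneg (Nat.cast_nonneg _) (h2 x)))
          · rcases lt_or_ge j (Nat.find hex) with hj | hj
            · rw [hz, if_neg (Nat.find_min hex hj), sub_zero]
              exact le_max_of_le_right (min_le_left _ _)
            · exact le_max_of_le_left (min_le_min_left _
                (mul_le_mul_of_nonneg_right (Nat.cast_le.2 hj) (h2 x)))
        rw [this]
        have := hv 0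
        fun_prop
      · have : (fun x => E (k + 1) (v x) (m x)) = fun _ => 1 := by
          ext x
          refine le_antisymm (E_bd _ _ _).2 (le_ciInf fun j => le_max_of_le_right ?_)
          rw [hz, if_neg fun h => hex ⟨j, h⟩]; simp
        rw [this]; exact continuous_const
    | succ r =>
      have hg : ∀ j : ℕ, Continuous fun x => max (min 1 (j * v x 0))
          (1 - E k (fun i => v x (i + 1)) (fun l => m x (j :: l))) := by
        intro j
        have h1 := ih r (fun x i => v x (i + 1)) (fun x l => m x (j :: l)) (fun i => hv _)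
          (fun l => hm _) (fun x i hi => hp x _ (by omega)) fun hk => by
            obtain ⟨a, b, c⟩ := hr (by omega)
            exact ⟨fun x y => by rw [a x y], b, fun x i hi => c x _ (by omega)⟩
        have := hv 0
        fun_prop
      rw [continuous_iff_continuousAt]
      intro x0
      have h0 := hp x0 0 (Nat.succ_pos _)
      obtain ⟨N, hN⟩ := exists_nat_gt (1 / v x0 0)
      rw [div_lt_iff₀ h0] at hN
      have hev : ∀ᶠ x in 𝓝 x0, 1 < N * v x 0 :=
        ((hv 0).const_mul (N : ℝ)).continuousAt.eventually (lt_mem_nhds hN)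
      have hc := Continuous.finset_inf' (s := Finset.range (N + 1)) (by simp) fun j _ => hg j
      refine hc.continuousAt.congr (hev.mono fun x hx => ?_)
      rw [Finset.inf'_apply]
      refine le_antisymm (le_ciInf fun j => ?_)
        (Finset.le_inf' _ _ fun j _ => ciInf_le (E_bdd k _ _) j)
      rcases le_or_gt j N with hj | hj
      · exact Finset.inf'_le_of_le _ (Finset.mem_range.2 (Nat.lt_succ_of_le hj)) le_rfl
      · refine Finset.inf'_le_of_le _ (Finset.mem_range.2 (Nat.succ_pos N)) ?_
        have h5 : (1 : ℝ) ≤ j * v x 0 := by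
          have := mul_le_mul_of_nonneg_right (Nat.cast_le (α := ℝ).2 hj.le)
            (hp x 0 (Nat.succ_pos _)).le
          linarith
        rw [min_eq_left h5]
        refine le_max_of_le_left (max_le (min_le_left _ _) ?_)
        linarith [(E_bd k (fun i => v x (i + 1)) fun l => m x (0 :: l)).1]

end Pool.Agent.H.MP_1441be_gt
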