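import Mathlib
import Pool.Agent.H.MP_1441be_gt.A
set_option autoImplicit false
namespace Pool.Agent.H.MP_1441be_gt
open Set Filter Topology

lemma box {ι : Type} {Y : Set (ι → ℝ)} {O : Set Y} (hO : IsOpen O) {y : Y} (hy : y ∈ O) :
    ∃ (I : Finset ι) (u : ι → Set ℝ), (∀ a ∈ I, IsOpen (u a) ∧ y.1 a ∈ u a) ∧
      ∀ g : Y, (∀ a ∈ I, g.1 a ∈ u a) → g ∈ O := by
  obtain ⟨O', h1, rfl⟩ := isOpen_induced_iff.1 hO
  obtain ⟨I, u, h2, h3⟩ := isOpen_pi_iff.1 h1 y.1 hy
  exact ⟨I, u, h2, fun g hg => h3 hg⟩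

lemma factor1 {ι : Type} {Y : Set (ι → ℝ)} (d : ℕ → Y) (hd : DenseRange fun n => (d n).1)
    {h : Y → ℝ} (hh : Continuous h) : ∃ Q : Set ι, Q.Countable ∧ ∀ (ρ : T → Y),
      (∀ q ∈ Q, Continuous fun t => (ρ t).1 q) → ∀ t0 b, h (ρ t0) < b →
        ∀ᶠ t in 𝓝 t0, h (ρ t) ≤ b := by
  classical
  have H : ∀ p : {p : ℕ × ℚ // (p.2 : ℝ) < h (d p.1)}, ∃ (I : Finset ι) (u : ι → Set ℝ),
      (∀ a ∈ I, IsOpen (u a) ∧ (d p.1.1).1 a ∈ u a) ∧
      ∀ g : Y, (∀ a ∈ I, g.1 a ∈ u a) → g ∈ {g | (p.1.2 : ℝ) < h g} :=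
    fun p => box (isOpen_lt continuous_const hh) p.2
  choose I u hu hI using H
  refine ⟨⋃ p, (I p : Set ι), countable_iUnion fun p => (I p).countable_toSet, ?_⟩
  intro ρ hρ t0 b hb
  obtain ⟨Q, hQ⟩ : ∃ Q, Q = ⋃ p, (I p : Set ι) := ⟨_, rfl⟩
  rw [← hQ] at hρ
  obtain ⟨J, w, hw, hJ⟩ := box (O := {g | h g < b}) (isOpen_lt hh continuous_const) hb
  have hev : ∀ᶠ t in 𝓝 t0, ∀ a ∈ J.filter (· ∈ Q), (ρ t).1 a ∈ w a := by
    rw [eventually_all_finset]
    intro a ha
    rw [Finset.mem_filter] at ha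
    exact (hρ a ha.2).continuousAt ((hw a ha.1).1.mem_nhds (hw a ha.1).2)
  refine hev.mono fun t ht => ?_
  by_contra hcon
  obtain ⟨q, h1, h2⟩ := exists_rat_btwn (not_le.1 hcon)
  obtain ⟨O', h3, h4⟩ := isOpen_induced_iff.1
    (isOpen_lt (continuous_const (y := (q : ℝ))) hh)
  have h5 : IsOpen (((J.filter (· ∈ Q) : Finset ι) : Set ι).pi w) :=
    isOpen_set_pi (Finset.finite_toSet _) fun a ha => (hw a (Finset.mem_filter.1 ha).1).1
  obtain ⟨n, hn1, hn2⟩ := hd.exists_mem_open (h3.inter h5)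
    ⟨(ρ t).1, (show ρ t ∈ Subtype.val ⁻¹' O' by rw [h4]; exact h2), ht⟩
  have hq : (q : ℝ) < h (d n) := by
    have : d n ∈ Subtype.val ⁻¹' O' := hn1
    rw [h4] at this; exact this
  let p : {p : ℕ × ℚ // (p.2 : ℝ) < h (d p.1)} := ⟨(n, q), hq⟩
  have h6 : IsOpen ((J : Set ι).pi w) :=
    isOpen_set_pi (Finset.finite_toSet _) fun a ha => (hw a ha).1
  have h7 : IsOpen ((I p : Set ι).pi (u p)) :=
    isOpen_set_pi (Finset.finite_toSet _) fun a ha => (hu p a ha).1
  obtain ⟨n', a1, a2⟩ := hd.exists_mem_open (h6.inter h7)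
    ⟨fun i => if i ∈ Q then (d n).1 i else (ρ t0).1 i, fun a ha => by
      by_cases haQ : a ∈ Q
      · simp only [if_pos haQ]; exact hn2 a (Finset.mem_filter.2 ⟨ha, haQ⟩)
      · simp only [if_neg haQ]; exact (hw a ha).2, fun a ha => by
      have haQ : a ∈ Q := hQ ▸ mem_iUnion.2 ⟨p, ha⟩
      simp only [if_pos haQ]; exact (hu p a ha).2⟩
  have b1 : h (d n') < b := hJ _ a1
  have b2 : (q : ℝ) < h (d n') := hI p _ a2
  linarith

lemma factor {ι : Type} {Y : Set (ι → ℝ)} (d : ℕ → Y) (hd : DenseRange fun n => (d n).1)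
    {h : Y → ℝ} (hh : Continuous h) : ∃ Q : Set ι, Q.Countable ∧ ∀ (ρ : T → Y),
      (∀ q ∈ Q, Continuous fun t => (ρ t).1 q) → Continuous fun t => h (ρ t) := by
  obtain ⟨Q1, c1, h1⟩ := factor1 d hd hh
  obtain ⟨Q2, c2, h2⟩ := factor1 d hd hh.neg
  refine ⟨Q1 ∪ Q2, c1.union c2, fun ρ hρ => continuous_iff_continuousAt.2 fun t0 => ?_⟩
  refine tendsto_order.2 ⟨fun a ha => ?_, fun a ha => ?_⟩
  · obtain ⟨b, b1, b2⟩ := exists_between ha
    refine (h2 ρ (fun q hq => hρ q (Or.inr hq)) t0 (-b) (by simpa using b2)).mono fun t ht => ?_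
    simp only [Pi.neg_apply] at ht
    linarith
  · obtain ⟨b, b1, b2⟩ := exists_between ha
    exact (h1 ρ (fun q hq => hρ q (Or.inl hq)) t0 b b1).mono fun t ht => ht.trans_lt b2

def SC (k : ℕ) : Set ((Fin k → unitInterval) → ℝ) :=
  {f | ∀ (i : Fin k) (x : Fin k → unitInterval),
    Continuous fun t : unitInterval => f (Function.update x i t)}

lemma cont_mem {k : ℕ} {f : (Fin k → unitInterval) → ℝ} (hf : Continuous f) : f ∈ SC k :=
  fun i x => hf.comp (continuous_const.update i continuous_id)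

lemma sc_dense (k : ℕ) : ∃ d : ℕ → SC k, DenseRange fun n => (d n).1 := by
  obtain ⟨d, hd⟩ := TopologicalSpace.exists_dense_seq C(Fin k → unitInterval, ℝ)
  refine ⟨fun n => ⟨d n, cont_mem (d n).continuous⟩, ?_⟩
  have hc : Continuous fun g : C(Fin k → unitInterval, ℝ) => (g : (Fin k → unitInterval) → ℝ) :=
    continuous_pi fun x => ContinuousEvalConst.continuous_eval_const x
  refine DenseRange.comp (g := fun g : C(Fin k → unitInterval, ℝ) =>
    (g : (Fin k → unitInterval) → ℝ)) ?_ hd hc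
  rw [DenseRange, dense_iff_inter_open]
  rintro U hU ⟨f, hf⟩
  obtain ⟨I, u, h1, h2⟩ := isOpen_pi_iff.1 hU f hf
  obtain ⟨g, hg⟩ := ContinuousMap.exists_restrict_eq (s := (I : Set (Fin k → unitInterval)))
    I.finite_toSet.isClosed ⟨fun x => f x, continuous_of_discreteTopology⟩
  refine ⟨g, h2 fun a ha => ?_, g, rfl⟩
  have : g a = f a := congrArg (fun φ : C((I : Set (Fin k → unitInterval)), ℝ) => φ ⟨a, ha⟩) hg
  rw [this]; exact (h1 a ha).2

noncomputable def vv {m : ℕ} (a : unitInterval) (x : Fin m → unitInterval) (j : ℕ) : ℝ :=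
  ∑ S ∈ Finset.powersetCard (j + 1) Finset.univ, ∏ i ∈ S, |(x i : ℝ) - a|

lemma vv_nonneg {m : ℕ} (a : unitInterval) (x : Fin m → unitInterval) (j : ℕ) : 0 ≤ vv a x j :=
  Finset.sum_nonneg fun _ _ => Finset.prod_nonneg fun _ _ => abs_nonneg _

lemma vv_pos {m : ℕ} (a : unitInterval) (x : Fin m → unitInterval) (j : ℕ) (S : Finset (Fin m))
    (hS : ∀ i ∈ S, x i ≠ a) (hj : j < S.card) : 0 < vv a x j := by
  obtain ⟨S', h1, h2⟩ := Finset.exists_subset_card_eq (n := j + 1) hj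
  refine Finset.sum_pos' (fun _ _ => Finset.prod_nonneg fun _ _ => abs_nonneg _)
    ⟨S', Finset.mem_powersetCard.2 ⟨Finset.subset_univ _, h2⟩, Finset.prod_pos fun i hi => ?_⟩
  exact abs_pos.2 (sub_ne_zero.2 fun h => hS i (h1 hi) (Subtype.ext h))

lemma vv_zero {m : ℕ} (a : unitInterval) (x : Fin m → unitInterval) (j : ℕ) (S : Finset (Fin m))
    (hS : ∀ i, i ∉ S → x i = a) (hj : S.card ≤ j) : vv a x j = 0 := by
  refine Finset.sum_eq_zero fun S' h => ?_
  have h2 := (Finset.mem_powersetCard.1 h).2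
  obtain ⟨i, h3, h4⟩ := Finset.exists_mem_notMem_of_card_lt_card (s := S) (t := S') (by omega)
  exact Finset.prod_eq_zero h3 (by rw [hS i h4]; simp)

lemma vv_cont {m : ℕ} (a : unitInterval) (j : ℕ) :
    Continuous fun x : Fin m → unitInterval => vv a x j := by
  unfold vv; fun_prop

lemma E_mem {m : ℕ} (a : unitInterval) (k : ℕ) (s : List ℕ → Bool)
    (β : C(Fin m → unitInterval, ℝ)) : (fun x => β x * E k (vv a x) s) ∈ SC m := by
  classical
  intro i x
  refine (cont_mem β.continuous i x).mul ?_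
  let S := Finset.univ.filter fun i' => i' ≠ i ∧ x i' ≠ a
  refine E_cont k S.card (fun t => vv a (Function.update x i t)) (fun _ => s)
    (fun j => cont_mem (vv_cont a j) i x) (fun _ => continuous_const) (fun t j hj => ?_)
    fun _ => ⟨fun _ _ => rfl, fun _ => vv_nonneg _ _ _, fun t j hj => ?_⟩
  · refine vv_pos _ _ _ S (fun i' hi' => ?_) hj
    have := (Finset.mem_filter.1 hi').2
    rw [Function.update_of_ne this.1]; exact this.2
  · refine vv_zero _ _ _ (insert i S) (fun i' hi' => ?_)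
      ((Finset.card_insert_le _ _).trans hj)
    simp only [S, Finset.mem_insert, Finset.mem_filter, Finset.mem_univ, true_and, not_or,
      not_and, not_not] at hi'
    rw [Function.update_of_ne hi'.1]; exact hi'.2 hi'.1

lemma baire {n : ℕ} {D : Set unitInterval} (hD : Dense D) (F : T → SC n)
    (h0 : ∀ z : Fin n → unitInterval, (∀ i, z i ∈ D) → Continuous fun t => (F t).1 z) (r : ℕ) :
    ∀ z : Fin n → unitInterval, (∀ i : Fin n, r ≤ i.1 → z i ∈ D) → r ≤ n →
      BC r fun t => (F t).1 z := by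
  induction r with
  | zero => intro z hz _; exact BC.of_cont (h0 z fun i => hz i (Nat.zero_le _))
  | succ r ih =>
    intro z hz hr
    let i0 : Fin n := ⟨r, hr⟩
    obtain ⟨d, hd, hl⟩ := mem_closure_iff_seq_limit.1 (hD (z i0))
    refine BC.lim (h := fun j t => (F t).1 (Function.update z i0 (d j))) (fun j => ih _ ?_
      (by omega)) fun t => ?_
    · intro i hi
      by_cases h : i = i0
      · rw [h, Function.update_self]; exact hd j
      · rw [Function.update_of_ne h]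
        refine hz i ?_
        have : i.1 ≠ r := fun h' => h (Fin.ext h')
        omega
    · have := (((F t).2 i0 z).tendsto (z i0)).comp hl
      rw [Function.update_eq_self] at this
      exact this

theorem main (n m : ℕ) (hnm : n < m) : ¬ ∃ Φ : SC m → SC n, IsEmbedding Φ := by
  classical
  rintro ⟨Φ, hΦ⟩
  obtain ⟨D, hDc, hD⟩ := TopologicalSpace.exists_countable_dense unitInterval
  obtain ⟨d, hd⟩ := sc_dense m
  have hcz : ∀ z, Continuous fun f : SC m => (Φ f).1 z :=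
    fun z => (continuous_apply z).comp (continuous_subtype_val.comp hΦ.continuous)
  choose Q hQc hQ using fun z => factor d hd (hcz z)
  have hG : {z : Fin n → unitInterval | ∀ i, z i ∈ D}.Countable := countable_pi fun _ => hDc
  have hB : (⋃ z ∈ {z : Fin n → unitInterval | ∀ i, z i ∈ D}, ⋃ q ∈ Q z,
      range fun i => (q i : ℝ)).Countable :=
    hG.biUnion fun z _ => (hQc z).biUnion fun q _ => countable_range _
  obtain ⟨a', ha1, ha2⟩ := (hB.dense_compl ℝ).exists_mem_open (isOpen_Ioo (a := (0 : ℝ)) (b := 1))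
    (nonempty_Ioo.2 one_pos)
  let a : unitInterval := ⟨a', Ioo_subset_Icc_self ha2⟩
  let p : Fin m → unitInterval := fun _ => a
  let f0 : SC m := ⟨fun _ => 0, cont_mem continuous_const⟩
  obtain ⟨O', h1, h2⟩ := hΦ.isInducing.isOpen_iff.1 (isOpen_lt
    ((continuous_apply p).comp (continuous_subtype_val (p := fun f => f ∈ SC m)))
    (continuous_const (y := (1 : ℝ))))
  have h3 : Φ f0 ∈ O' := by
    have : f0 ∈ Φ ⁻¹' O' := by rw [h2]; exact (zero_lt_one : (0 : ℝ) < 1)
    exact this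
  obtain ⟨M, u, hu, hM⟩ := box h1 h3
  have : ∀ z, ∃ ε > 0, z ∈ M → Metric.ball ((Φ f0).1 z) ε ⊆ u z := by
    intro z
    by_cases hz : z ∈ M
    · obtain ⟨ε, e1, e2⟩ := Metric.isOpen_iff.1 (hu z hz).1 _ (hu z hz).2
      exact ⟨ε, e1, fun _ => e2⟩
    · exact ⟨1, one_pos, fun h => absurd h hz⟩
  choose ε hε hb using this
  have h4 : IsOpen (⋂ z ∈ M, {f : SC m | |(Φ f).1 z - (Φ f0).1 z| < ε z / 2}) :=
    isOpen_biInter_finset fun z _ => isOpen_lt (by have := hcz z; fun_prop) continuous_const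
  obtain ⟨E0, w, hw, hE⟩ := box (y := f0) h4 (mem_iInter₂.2 fun z _ => by simpa using hε z)
  obtain ⟨β, b0, b1, -⟩ := exists_continuous_zero_one_of_isClosed
    (E0.erase p).finite_toSet.isClosed (isClosed_singleton (x := p)) (by simp)
  let ρ : T → SC m := fun t => ⟨_, E_mem a (n + 1) (R t t) β⟩
  have hp : ∀ t, (ρ t).1 p = if Tr (n + 1) (R t t) then 1 else 0 := by
    intro t
    show β p * E _ _ _ = _
    rw [b1 rfl, E_zero _ _ _ fun j => vv_zero a p j ∅ (fun _ _ => rfl) (by simp)]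
    simp
  have hBC : ∀ z, BC n fun t => (Φ (ρ t)).1 z := by
    intro z
    refine baire hD (fun t => Φ (ρ t)) (fun z hz => hQ z ρ fun q hq => ?_) n z
      (fun i hi => absurd i.2 (by omega)) le_rfl
    refine continuous_const.mul (E_cont (n + 1) (n + 1) (fun _ => vv a q) (fun t => R t t)
      (fun _ => continuous_const) R_cont (fun _ j hj => ?_) fun h => absurd h (lt_irrefl _))
    refine vv_pos _ _ _ Finset.univ (fun i _ h => ha1 ?_) (by simp; omega)
    exact mem_biUnion hz (mem_biUnion hq ⟨i, congrArg Subtype.val h⟩)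
  apply diag n
  have : {t | Tr (n + 1) (R t t)} = ⋃ z : M, ⋃ b : Bool,
      if b then {t | (Φ f0).1 z + ε z / 2 < (Φ (ρ t)).1 z}
      else {t | (Φ (ρ t)).1 z < (Φ f0).1 z - ε z / 2} := by
    ext t
    simp only [mem_iUnion, mem_ofPred_eq, Bool.exists_bool, Bool.false_eq_true, if_false, if_true]
    constructor
    · intro ht
      by_contra hcon
      push Not at hcon
      have h5 : ρ t ∈ Φ ⁻¹' O' := hM _ fun z hz => hb z hz (by
        have := hcon ⟨z, hz⟩
        rw [Metric.mem_ball, Real.dist_eq, abs_lt]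
        have e := hε z
        constructor <;> linarith [this.1, this.2])
      rw [h2] at h5
      have h6 : (ρ t).1 p < 1 := h5
      rw [hp, if_pos ht] at h6
      exact lt_irrefl _ h6
    · rintro ⟨z, hz⟩
      by_contra ht
      have h5 := hE (ρ t) fun x hx => by
        have : (ρ t).1 x = 0 := by
          by_cases hxp : x = p
          · rw [hxp, hp, if_neg ht]
          · show β x * _ = 0
            rw [b0 (Finset.mem_erase.2 ⟨hxp, hx⟩)]; simp
        rw [this]; exact (hw x hx).2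
      have h7 : |(Φ (ρ t)).1 z - (Φ f0).1 z| < ε z / 2 := mem_iInter₂.1 h5 z.1 z.2
      have h6 := abs_lt.1 h7
      rcases hz with hz | hz <;> linarith [h6.1, h6.2]
  rw [this]
  refine sig_iUnion fun z => sig_iUnion fun b => ?_
  cases b
  · exact (hBC z _).2
  · exact (hBC z _).1

end Pool.Agent.H.MP_1441be_gt
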